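import Pool.Agent.H143R3.BT.Stmts

/-! TaskR2 of project H143-BT: upper bound on the law of the maximum of Brownian motion. -/

set_option autoImplicit false

namespace Pool.Agent.H201R3.BTR2

open MeasureTheory ProbabilityTheory Filter Topology Pool.Agent.H143R3.BT
open scoped ENNReal NNReal

universe v

/-! ### The discrete reflection inequality -/

section Discrete

variable {Ω : Type v} [MeasurableSpace Ω] {P : Measure Ω} [IsProbabilityMeasure P]

/-- partial sums -/
def S (D : ℕ → Ω → ℝ) (k : ℕ) (ω : Ω) : ℝ := ∑ j ∈ Finset.range k, D j ω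

/-- first passage -/
def A (D : ℕ → Ω → ℝ) (r : ℝ) (i : ℕ) : Set Ω := {ω | r < S D i ω ∧ ∀ k < i, S D k ω ≤ r}

/-- tails -/
def T (D : ℕ → Ω → ℝ) (N i : ℕ) : Set Ω := {ω | 0 < ∑ j ∈ Finset.Ico i N, D j ω}

theorem S_meas {D : ℕ → Ω → ℝ} (hD : ∀ j, Measurable (D j)) (k : ℕ) : Measurable (S D k) := by
  unfold S
  exact Finset.measurable_sum _ (fun j _ => hD j)

theorem A_meas {D : ℕ → Ω → ℝ} (hD : ∀ j, Measurable (D j)) (r : ℝ) (i : ℕ) :
    MeasurableSet (A D r i) := by
  have hm : MeasurableSet {ω | ∀ k < i, S D k ω ≤ r} := by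
    have : {ω | ∀ k < i, S D k ω ≤ r} = ⋂ k ∈ Set.Iio i, {ω | S D k ω ≤ r} := by
      ext ω
      simp
    rw [this]
    exact MeasurableSet.biInter (Set.to_countable _)
      (fun k _ => measurableSet_le (S_meas hD k) measurable_const)
  exact (measurableSet_lt measurable_const (S_meas hD i)).inter hm

/-- extension by zero -/
noncomputable def ext (i : ℕ) (d : (Finset.range i) → ℝ) (j : ℕ) : ℝ :=
  if h : j ∈ Finset.range i then d ⟨j, h⟩ else 0

theorem ext_meas (i : ℕ) : Measurable (ext i) := by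
  rw [measurable_pi_iff]
  intro j
  unfold ext
  by_cases h : j ∈ Finset.range i
  · simp only [h, dif_pos]
    exact measurable_pi_apply _
  · simp only [h, not_false_eq_true, dif_neg]
    exact measurable_const

theorem A_indep {D : ℕ → Ω → ℝ} (hD : ∀ j, Measurable (D j)) (hI : iIndepFun D P) (r : ℝ)
    (N i : ℕ) : P (A D r i ∩ T D N i) = P (A D r i) * P (T D N i) := by
  have hdis : Disjoint (Finset.range i) (Finset.Ico i N) := by
    rw [Finset.disjoint_left]
    intro j hj hj'
    rw [Finset.mem_range] at hj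
    rw [Finset.mem_Ico] at hj'
    omega
  have h := hI.indepFun_finset _ _ hdis hD
  set B : Set ((Finset.range i) → ℝ) := (ext i) ⁻¹' (A (fun (j : ℕ) (e : ℕ → ℝ) => e j) r i) with hB
  have hBm : MeasurableSet B := (ext_meas i) (A_meas (fun j => measurable_pi_apply j) r i)
  set B' : Set ((Finset.Ico i N) → ℝ) := {d | 0 < ∑ j, d j} with hB'
  have hBm' : MeasurableSet B' :=
    measurableSet_lt measurable_const (Finset.measurable_sum _ (fun j _ => measurable_pi_apply j))
  have h2 := h.measure_inter_preimage_eq_mul B B' hBm hBm'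
  have e1 : (fun (a : Ω) (j : Finset.range i) => D j a) ⁻¹' B = A D r i := by
    ext ω
    simp only [Set.mem_preimage, hB, A, Set.mem_ofPred_eq]
    have hS : ∀ k, k ≤ i → S (fun (j : ℕ) (e : ℕ → ℝ) => e j) k
        (ext i (fun (j : Finset.range i) => D j ω)) = S D k ω := by
      intro k hk
      unfold S
      apply Finset.sum_congr rfl
      intro j hj
      rw [Finset.mem_range] at hj
      show (if h : j ∈ Finset.range i then D j ω else 0) = D j ω
      rw [dif_pos (Finset.mem_range.mpr (by omega))]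
    rw [hS i le_rfl]
    constructor
    · rintro ⟨h3, h4⟩
      refine ⟨h3, fun k hk => ?_⟩
      rw [← hS k hk.le]
      exact h4 k hk
    · rintro ⟨h3, h4⟩
      refine ⟨h3, fun k hk => ?_⟩
      rw [hS k hk.le]
      exact h4 k hk
  have e2 : (fun (a : Ω) (j : Finset.Ico i N) => D j a) ⁻¹' B' = T D N i := by
    ext ω
    simp only [Set.mem_preimage, hB', T, Set.mem_ofPred_eq]
    rw [Finset.sum_coe_sort (Finset.Ico i N) (fun j => D j ω)]
  rw [e1, e2] at h2
  exact h2

theorem A_disj (D : ℕ → Ω → ℝ) (r : ℝ) (s : Set ℕ) : s.PairwiseDisjoint (A D r) := by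
  intro i _ j _ hij
  rw [Function.onFun, Set.disjoint_left]
  rintro ω ⟨h1, h2⟩ ⟨h3, h4⟩
  rcases lt_or_gt_of_ne hij with h | h
  · exact absurd h1 (not_lt.mpr (h4 i h))
  · exact absurd h3 (not_lt.mpr (h2 j h))

theorem discrete {D : ℕ → Ω → ℝ} (hD : ∀ j, Measurable (D j)) (hI : iIndepFun D P) {r δ : ℝ}
    (hr : 0 ≤ r) (hδ : 0 ≤ δ) (N : ℕ) (hT : ∀ i, i ≤ N → P.real (T D N i) ≤ 1 / 2) :
    P.real {ω | r + δ < S D N ω} ≤ 1 / 2 * P.real {ω | ∃ i, i ≤ N ∧ r < S D i ω} +
      ∑ j ∈ Finset.range N, P.real {ω | δ < D j ω} := by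
  have hsub : {ω | r + δ < S D N ω} ⊆ (⋃ i ∈ Finset.range (N + 1), (A D r i ∩ T D N i)) ∪
      ⋃ j ∈ Finset.range N, {ω | δ < D j ω} := by
    intro ω hω
    simp only [Set.mem_ofPred_eq] at hω
    by_cases hbig : ∃ j ∈ Finset.range N, δ < D j ω
    · right
      obtain ⟨j, hj, hj'⟩ := hbig
      exact Set.mem_biUnion hj hj'
    · left
      push Not at hbig
      have hex : ∃ i, r < S D i ω := ⟨N, by linarith⟩
      classical
      obtain ⟨h1, h2⟩ : r < S D (Nat.find hex) ω ∧ ∀ k < Nat.find hex, S D k ω ≤ r :=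
        ⟨Nat.find_spec hex, fun k hk => not_lt.mp (Nat.find_min hex hk)⟩
      have hle : Nat.find hex ≤ N := Nat.find_min' hex (by linarith)
      set i := Nat.find hex with hi
      have hi0 : i ≠ 0 := by
        intro h0
        rw [h0] at h1
        simp only [S, Finset.range_zero, Finset.sum_empty] at h1
        linarith
      obtain ⟨m, hm⟩ : ∃ m, i = m + 1 := ⟨i - 1, by omega⟩
      have h3 : S D i ω ≤ r + δ := by
        have h4 := h2 m (by omega)
        have h5 := hbig m (Finset.mem_range.mpr (by omega))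
        have h6 : S D i ω = S D m ω + D m ω := by
          rw [hm]
          unfold S
          rw [Finset.sum_range_succ]
        linarith
      have h7 : S D N ω = S D i ω + ∑ j ∈ Finset.Ico i N, D j ω := by
        unfold S
        rw [Finset.sum_range_add_sum_Ico _ hle]
      refine Set.mem_biUnion (x := i) (Finset.mem_coe.mpr (Finset.mem_range.mpr (by omega))) ?_
      refine ⟨⟨h1, h2⟩, ?_⟩
      simp only [T, Set.mem_ofPred_eq]
      linarith
  have h1 : P.real {ω | r + δ < S D N ω} ≤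
      ∑ i ∈ Finset.range (N + 1), P.real (A D r i ∩ T D N i) +
        ∑ j ∈ Finset.range N, P.real {ω | δ < D j ω} := by
    calc _ ≤ _ := measureReal_mono hsub
      _ ≤ _ := measureReal_union_le _ _
      _ ≤ _ := add_le_add (measureReal_biUnion_finset_le _ _) (measureReal_biUnion_finset_le _ _)
  have h2 : ∑ i ∈ Finset.range (N + 1), P.real (A D r i ∩ T D N i) ≤
      1 / 2 * P.real {ω | ∃ i, i ≤ N ∧ r < S D i ω} := by
    have h3 : ∀ i ∈ Finset.range (N + 1), P.real (A D r i ∩ T D N i) ≤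
        1 / 2 * P.real (A D r i) := by
      intro i hi
      rw [Finset.mem_range] at hi
      have h4 : P.real (A D r i ∩ T D N i) = P.real (A D r i) * P.real (T D N i) := by
        simp only [measureReal_def, A_indep hD hI r N i, ENNReal.toReal_mul]
      rw [h4]
      have h5 := hT i (by omega)
      have h6 : 0 ≤ P.real (A D r i) := measureReal_nonneg
      nlinarith
    calc _ ≤ ∑ i ∈ Finset.range (N + 1), 1 / 2 * P.real (A D r i) := Finset.sum_le_sum h3
      _ = 1 / 2 * P.real (⋃ i ∈ Finset.range (N + 1), A D r i) := by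
          rw [← Finset.mul_sum, measureReal_biUnion_finset (A_disj D r _)
            (fun i _ => A_meas hD r i)]
      _ ≤ _ := by
          apply mul_le_mul_of_nonneg_left _ (by norm_num)
          refine measureReal_mono ?_ (measure_ne_top _ _)
          intro ω hω
          rw [Set.mem_iUnion₂] at hω
          obtain ⟨i, hi, hi2⟩ := hω
          rw [Finset.mem_range] at hi
          exact ⟨i, by omega, hi2.1⟩
  linarith

end Discrete

/-! ### Gaussian facts -/

theorem gauss_sym (v : ℝ≥0) (a : ℝ) :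
    (gaussianReal 0 v).real (Set.Ioi a) = (gaussianReal 0 v).real (Set.Iio (-a)) := by
  have h : (gaussianReal 0 v).map (fun x => -x) = gaussianReal 0 v := by
    rw [gaussianReal_map_neg, neg_zero]
  have h2 : (gaussianReal 0 v) (Set.Ioi a) = ((gaussianReal 0 v).map (fun x => -x)) (Set.Ioi a) := by
    rw [h]
  rw [Measure.map_apply measurable_neg measurableSet_Ioi] at h2
  have e : (fun x : ℝ => -x) ⁻¹' Set.Ioi a = Set.Iio (-a) := by
    ext x
    simp only [Set.mem_preimage, Set.mem_Ioi, Set.mem_Iio]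
    constructor <;> intro h <;> linarith
  rw [e] at h2
  simp only [measureReal_def, h2]

theorem gauss_half (v : ℝ≥0) : (gaussianReal 0 v).real (Set.Ioi 0) ≤ 1 / 2 := by
  have h1 := gauss_sym v 0
  rw [neg_zero] at h1
  have h2 : (gaussianReal 0 v).real (Set.Ioi 0 ∪ Set.Iio 0) ≤ 1 := prob_le_one |> fun h => by
    rw [measureReal_def]
    exact ENNReal.toReal_le_of_le_ofReal (by norm_num) (by simpa using h)
  rw [measureReal_union (by
    rw [Set.disjoint_left]
    intro x hx hx'
    simp only [Set.mem_Ioi, Set.mem_Iio] at hx hx'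
    linarith) measurableSet_Iio] at h2
  linarith

theorem gauss_mid {v : ℝ≥0} (hv : v ≠ 0) {a : ℝ} (ha : 0 ≤ a) :
    1 - 2 * (gaussianReal 0 v).real (Set.Ioi a) ≤ 2 * a * (√(2 * Real.pi * v))⁻¹ := by
  have h1 := gauss_sym v a
  have huniv : (Set.univ : Set ℝ) = (Set.Iio (-a) ∪ Set.Icc (-a) a) ∪ Set.Ioi a := by
    ext x
    simp only [Set.mem_univ, Set.mem_union, Set.mem_Iio, Set.mem_Icc, Set.mem_Ioi, true_iff]
    rcases lt_or_ge x (-a) with h | h
    · left
      left
      exact h
    · rcases le_or_gt x a with h' | h'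
      · left
        right
        exact ⟨h, h'⟩
      · right
        exact h'
  have h2 : (1 : ℝ) ≤ (gaussianReal 0 v).real (Set.Iio (-a)) +
      (gaussianReal 0 v).real (Set.Icc (-a) a) + (gaussianReal 0 v).real (Set.Ioi a) := by
    have h3 : (gaussianReal 0 v).real Set.univ = 1 := by simp
    rw [← h3, huniv]
    refine (measureReal_union_le _ _).trans ?_
    have := measureReal_union_le (μ := gaussianReal 0 v) (Set.Iio (-a)) (Set.Icc (-a) a)
    linarith
  have h4 : (gaussianReal 0 v).real (Set.Icc (-a) a) ≤ 2 * a * (√(2 * Real.pi * v))⁻¹ := by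
    rw [measureReal_def, gaussianReal_apply_eq_integral 0 hv, ENNReal.toReal_ofReal
      (setIntegral_nonneg measurableSet_Icc (fun x _ => gaussianPDFReal_nonneg _ _ _))]
    have h5 : ∫ x in Set.Icc (-a) a, gaussianPDFReal 0 v x ≤
        ∫ x in Set.Icc (-a) a, (√(2 * Real.pi * v))⁻¹ := by
      apply setIntegral_mono_on (integrable_gaussianPDFReal _ _).integrableOn
        (integrableOn_const (by simp)) measurableSet_Icc
      intro x _
      rw [gaussianPDFReal]
      have h6 : Real.exp (-(x - 0) ^ 2 / (2 * v)) ≤ 1 := by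
        rw [Real.exp_le_one_iff]
        apply div_nonpos_of_nonpos_of_nonneg
        · have := sq_nonneg (x - 0)
          linarith
        · positivity
      calc _ ≤ (√(2 * Real.pi * v))⁻¹ * 1 := mul_le_mul_of_nonneg_left h6 (by positivity)
        _ = _ := mul_one _
    refine h5.trans (le_of_eq ?_)
    rw [setIntegral_const, smul_eq_mul, Real.volume_real_Icc_of_le (by linarith)]
    ring
  linarith

theorem gauss_tail {v : ℝ≥0} (hv : v ≠ 0) {r : ℝ} (hr : 0 ≤ r) :
    (gaussianReal 0 v).real (Set.Ioi r) ≤ Real.exp (-(r ^ 2 / (2 * v))) := by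
  have hv0 : (0 : ℝ) < v := by
    have : 0 < v := pos_iff_ne_zero.mpr hv
    exact_mod_cast this
  have h1 := measure_ge_le_exp_mul_mgf (μ := gaussianReal 0 v) (X := fun x : ℝ => x) (t := r / v) r
    (by positivity) (integrable_exp_mul_gaussianReal _)
  have h2 : mgf (fun x : ℝ => x) (gaussianReal 0 v) (r / v) =
      Real.exp (0 * (r / v) + v * (r / v) ^ 2 / 2) := mgf_gaussianReal (by simp) _
  rw [h2, ← Real.exp_add] at h1
  have h3 : (gaussianReal 0 v).real (Set.Ioi r) ≤ (gaussianReal 0 v).real {ω : ℝ | r ≤ ω} := by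
    refine measureReal_mono ?_ (measure_ne_top _ _)
    intro x hx
    show r ≤ x
    exact le_of_lt (Set.mem_Ioi.mp hx)
  refine h3.trans (h1.trans (le_of_eq ?_))
  congr 1
  field_simp
  ring

/-! ### The main estimate -/

theorem tq_mono (s : ℝ≥0) (n : ℕ) : Monotone (fun k : ℕ => tq s (k, n)) := by
  intro a b hab
  unfold tq
  simp only
  gcongr

theorem tq_zero (s : ℝ≥0) (n : ℕ) : tq s (0, n) = 0 := by
  simp [tq]

theorem tq_le (s : ℝ≥0) (p : ℕ × ℕ) : tq s p ≤ s := by
  unfold tq
  calc s * min ((p.1 : ℝ≥0) / (p.2 + 1)) 1 ≤ s * 1 := by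
        gcongr
        exact min_le_right _ _
    _ = s := mul_one _

theorem tq_coe (s : ℝ≥0) (n k : ℕ) (hk : k ≤ n + 1) :
    ((tq s (k, n) : ℝ≥0) : ℝ) = s * (k / (n + 1)) := by
  unfold tq
  have h : (k : ℝ≥0) / ((n : ℝ≥0) + 1) ≤ 1 := by
    rw [div_le_one (by positivity)]
    exact_mod_cast hk
  simp only
  rw [min_eq_left h]
  push_cast
  ring

theorem bdd_path (s : ℝ≥0) {x : ℝ≥0 → ℝ} (hx : Continuous x) :
    BddAbove (Set.range fun p : ℕ × ℕ => x (tq s p)) := by
  have hc : IsCompact (Set.Icc (0 : ℝ≥0) s) := isCompact_Icc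
  obtain ⟨M, hM⟩ := (hc.image hx).bddAbove
  refine ⟨M, ?_⟩
  rintro _ ⟨p, rfl⟩
  exact hM ⟨tq s p, ⟨by simp, tq_le s p⟩, rfl⟩

theorem grid {Ω' : Type v} [MeasurableSpace Ω'] (P' : Measure Ω') [IsProbabilityMeasure P']
    (W : ℝ≥0 → Ω' → ℝ) (hW : IsBM P' W) {s : ℝ≥0} (hs : 0 < s) {r : ℝ} (hr : 0 < r) (n : ℕ) :
    P'.real {ω | sp s (fun u => W u ω) ≤ r} ≤ 4 * r * (√(2 * Real.pi * s))⁻¹ +
      2 * ((n + 1) * Real.exp (-(r ^ 2 / (2 * s)) * (n + 1))) := by
  set t : ℕ → ℝ≥0 := fun k => tq s (k, n) with ht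
  have htm : Monotone t := tq_mono s n
  set D : ℕ → Ω' → ℝ := fun k ω => W (t (k + 1)) ω - W (t k) ω with hD
  have hDm : ∀ j, Measurable (D j) := fun j => (hW.meas _).sub (hW.meas _)
  have hI : iIndepFun D P' := hW.indep.nat htm
  have hS : ∀ k ω, S D k ω = W (t k) ω - W (t 0) ω := by
    intro k ω
    unfold S
    exact Finset.sum_range_sub (fun k => W (t k) ω) k
  have ht0 : t 0 = 0 := tq_zero s n
  have htN : t (n + 1) = s := by
    apply NNReal.coe_injective
    rw [ht]
    simp only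
    rw [tq_coe s n (n + 1) le_rfl]
    push_cast
    field_simp
  have hlaw : ∀ a b : ℕ, a ≤ b → ∀ c : ℝ, P'.real {ω | c < W (t b) ω - W (t a) ω} =
      (gaussianReal 0 (t b - t a)).real (Set.Ioi c) := by
    intro a b hab c
    rw [← hW.law (t a) (t b) (htm hab), measureReal_def, measureReal_def,
      Measure.map_apply (show Measurable (fun ω => W (t b) ω - W (t a) ω) from
        (hW.meas _).sub (hW.meas _)) measurableSet_Ioi]
    rfl
  have hT : ∀ i, i ≤ n + 1 → P'.real (T D (n + 1) i) ≤ 1 / 2 := by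
    intro i hi
    have e : T D (n + 1) i = {ω | 0 < W (t (n + 1)) ω - W (t i) ω} := by
      ext ω
      simp only [T, Set.mem_ofPred_eq]
      rw [hD]
      simp only
      rw [Finset.sum_Ico_sub (fun k => W (t k) ω) hi]
    rw [e, hlaw i (n + 1) hi 0]
    exact gauss_half _
  have hdis := discrete hDm hI hr.le hr.le (n + 1) hT
  -- the last position
  have h1 : P'.real {ω | r + r < S D (n + 1) ω} = (gaussianReal 0 s).real (Set.Ioi (2 * r)) := by
    have e : {ω | r + r < S D (n + 1) ω} = {ω | 2 * r < W (t (n + 1)) ω - W (t 0) ω} := by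
      ext ω
      simp only [Set.mem_ofPred_eq, hS]
      rw [two_mul]
    rw [e, hlaw 0 (n + 1) (by omega), ht0, htN, tsub_zero]
  -- the increments
  have h2 : ∀ j ∈ Finset.range (n + 1), P'.real {ω | r < D j ω} ≤
      Real.exp (-(r ^ 2 / (2 * s)) * (n + 1)) := by
    intro j hj
    rw [Finset.mem_range] at hj
    have h3 := hlaw j (j + 1) (by omega) r
    have hle : t j ≤ t (j + 1) := htm (by omega)
    have hv : ((t (j + 1) - t j : ℝ≥0) : ℝ) = s / (n + 1) := by
      rw [NNReal.coe_sub hle]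
      rw [ht]
      simp only
      rw [tq_coe s n (j + 1) (by omega), tq_coe s n j (by omega)]
      push_cast
      field_simp
      ring
    have hs0 : (0 : ℝ) < s := by exact_mod_cast hs
    have hv0 : t (j + 1) - t j ≠ 0 := by
      intro h0
      rw [h0] at hv
      have : (0:ℝ) < s / (n + 1) := by positivity
      rw [← hv] at this
      simp at this
    have h4 := gauss_tail hv0 hr.le
    rw [← h3, hv] at h4
    refine h4.trans (le_of_eq ?_)
    congr 1
    field_simp
  have h3 : ∑ j ∈ Finset.range (n + 1), P'.real {ω | r < D j ω} ≤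
      (n + 1) * Real.exp (-(r ^ 2 / (2 * s)) * (n + 1)) := by
    calc _ ≤ ∑ j ∈ Finset.range (n + 1), Real.exp (-(r ^ 2 / (2 * s)) * (n + 1)) :=
          Finset.sum_le_sum h2
      _ = _ := by
          rw [Finset.sum_const, Finset.card_range, nsmul_eq_mul]
          push_cast
          ring
  -- the supremum
  have h4 : P'.real {ω | sp s (fun u => W u ω) ≤ r} +
      P'.real {ω | ∃ i, i ≤ n + 1 ∧ r < S D i ω} ≤ 1 := by
    have hmeas : MeasurableSet {ω | ∃ i, i ≤ n + 1 ∧ r < S D i ω} := by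
      have e : {ω | ∃ i, i ≤ n + 1 ∧ r < S D i ω} = ⋃ i ∈ Set.Iic (n + 1), {ω | r < S D i ω} := by
        ext ω
        simp
      rw [e]
      exact MeasurableSet.biUnion (Set.to_countable _)
        (fun i _ => measurableSet_lt measurable_const (S_meas hDm i))
    have h5 : P' {ω | sp s (fun u => W u ω) ≤ r} ≤
        P' ({ω | ∃ i, i ≤ n + 1 ∧ r < S D i ω}ᶜ) := by
      apply measure_mono_ae
      filter_upwards [hW.zero, hW.cont] with ω h0 hc
      intro hω hcon
      obtain ⟨i, _, hi⟩ := hcon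
      rw [hS i ω, ht0, h0, sub_zero] at hi
      have h6 : W (t i) ω ≤ sp s (fun u => W u ω) := by
        unfold sp
        exact le_ciSup (bdd_path s hc) (i, n)
      have h7 : sp s (fun u => W u ω) ≤ r := hω
      linarith
    have h6 : P'.real {ω | sp s (fun u => W u ω) ≤ r} ≤
        P'.real ({ω | ∃ i, i ≤ n + 1 ∧ r < S D i ω}ᶜ) := by
      rw [measureReal_def, measureReal_def]
      exact ENNReal.toReal_mono (measure_ne_top _ _) h5
    rw [probReal_compl_eq_one_sub hmeas] at h6
    linarith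
  have h5 := gauss_mid (v := s) hs.ne' (a := 2 * r) (by positivity)
  rw [h1] at hdis
  nlinarith

theorem taskR2 : TaskR2.{v} := by
  refine ⟨2, by norm_num, ?_⟩
  intro Ω' _ P' _ W hW s hs r hr
  have hs0 : (0 : ℝ) < s := by exact_mod_cast hs
  have hlim : Tendsto (fun n : ℕ => 4 * r * (√(2 * Real.pi * s))⁻¹ +
      2 * (((n : ℝ) + 1) * Real.exp (-(r ^ 2 / (2 * s)) * ((n : ℝ) + 1)))) atTop
      (𝓝 (4 * r * (√(2 * Real.pi * s))⁻¹ + 2 * 0)) := by
    apply Tendsto.const_add
    apply Tendsto.const_mul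
    have h1 : Tendsto (fun x : ℝ => x * Real.exp (-(r ^ 2 / (2 * s)) * x)) atTop (𝓝 0) := by
      have h2 := Real.tendsto_pow_mul_exp_neg_atTop_nhds_zero 1
      have hc : 0 < r ^ 2 / (2 * s) := by positivity
      have h3 : Tendsto (fun x : ℝ => (r ^ 2 / (2 * s)) * x) atTop atTop :=
        tendsto_id.const_mul_atTop hc
      have h4 := (h2.comp h3).const_mul (r ^ 2 / (2 * (s : ℝ)))⁻¹
      rw [mul_zero] at h4
      refine h4.congr (fun x => ?_)
      simp only [Function.comp, pow_one]
      rw [← mul_assoc, ← mul_assoc, inv_mul_cancel₀ hc.ne', one_mul, neg_mul]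
    have h5 : Tendsto (fun n : ℕ => (n : ℝ) + 1) atTop atTop :=
      tendsto_atTop_add_const_right _ _ tendsto_natCast_atTop_atTop
    exact h1.comp h5
  have h1 : P'.real {ω | sp s (fun u => W u ω) ≤ r} ≤
      4 * r * (√(2 * Real.pi * s))⁻¹ + 2 * 0 :=
    ge_of_tendsto' hlim (fun n => grid P' W hW hs hr n)
  have h2 : 4 * r * (√(2 * Real.pi * s))⁻¹ + 2 * 0 ≤ 2 * (r / √(s : ℝ)) := by
    rw [mul_zero, add_zero, Real.sqrt_mul (by positivity), mul_inv]
    have h3 : 2 ≤ √(2 * Real.pi) := by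
      apply Real.le_sqrt_of_sq_le
      nlinarith [Real.pi_gt_three]
    have h4 : (√(2 * Real.pi))⁻¹ ≤ 2⁻¹ := inv_anti₀ (by norm_num) h3
    have h5 : 0 < (√(s : ℝ))⁻¹ := by positivity
    calc 4 * r * ((√(2 * Real.pi))⁻¹ * (√(s : ℝ))⁻¹) ≤ 4 * r * (2⁻¹ * (√(s : ℝ))⁻¹) := by
          gcongr
      _ = 2 * (r / √(s : ℝ)) := by
          rw [div_eq_mul_inv]
          ring
  rw [← ENNReal.ofReal_toReal (measure_ne_top P' _)]
  apply ENNReal.ofReal_le_ofReal
  exact h1.trans h2

end Pool.Agent.H201R3.BTR2
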